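import Pool.Agent.H131KL.Final
import Pool.Agent.KLev.Arcs

/-!
# Levels of `s`-intersecting arcs: at least `n ^ (1 + exp (-3 √(log log n)))` vertices

`Arc`, `IsFamily`, `vertices`, `below`, `kLevel`, `complexity` and `Psi` are defined in
`Pool/Agent/KLev/Arcs.lean` (namespace `KLev.Arcs`).
-/

namespace Pool.Agent.Results.MP_b774a0_co.NearPolynomial

open Filter KLev

/-- For every `s ≥ 1`, all large `n` satisfy
`Psi s n ≥ n ^ (1 + exp (-3 √(log log n)))`. -/
theorem result : ∀ s : ℕ, 1 ≤ s → ∀ᶠ n : ℕ in atTop,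
    (n : ℝ) ^ (1 + Real.exp (-3 * √(Real.log (Real.log n)))) ≤ (Arcs.Psi s n : ℝ) := by
  intro s hs
  obtain ⟨a, ha⟩ := (NearPoly.finalP 1).exists_forall_of_atTop
  filter_upwards [eventually_ge_atTop (2 * a + 10)] with n hn
  obtain ⟨N, E, P, hH, hN, hE⟩ := ha (n / 2) (by omega)
  have h1 := Arcs.Psi_ge hs hH n (by omega) (by omega)
  have h2 : (E : ℝ) ≤ Arcs.Psi s n := by exact_mod_cast h1
  have hnm : (n : ℝ) ≤ 8 * ((n / 2 : ℕ) : ℝ) := by
    have : n ≤ 8 * (n / 2) := by omega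
    exact_mod_cast this
  have hnm2 : ((n / 2 : ℕ) : ℝ) ≤ n := by
    have : n / 2 ≤ n := by omega
    exact_mod_cast this
  have h3 := hE n hnm2 hnm
  rw [one_mul] at h3
  exact h3.trans h2

end Pool.Agent.Results.MP_b774a0_co.NearPolynomial
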